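import Pool.Agent.Helper26.AF.Goals

set_option autoImplicit false
set_option linter.unusedSectionVars false
set_option linter.unusedVariables false

namespace Pool.Agent.Helper83.AF

open Finset Pool.Agent.Helper26.AF

variable {V : Type}

/-- a function invariant under `σ` is constant on the cycles of `σ` -/
theorem inv_zpow {D I : Type} (σ : Equiv.Perm D) (f : D → I) (hf : ∀ x, f (σ x) = f x) (i : ℤ) :
    ∀ x, f ((σ ^ i) x) = f x := by
  induction i using Int.induction_on with
  | zero => intro x; simp
  | succ i ih => intro x; rw [zpow_add_one, Equiv.Perm.mul_apply, ih, hf]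
  | pred i ih =>
    intro x
    rw [zpow_sub_one, Equiv.Perm.mul_apply, ih]
    have h1 := hf (σ⁻¹ x)
    have h2 : σ (σ⁻¹ x) = x := σ.apply_symm_apply x
    rw [h2] at h1
    exact h1.symm

/-- component of a dart -/
def cd (G : SimpleGraph V) (d : G.Dart) : G.ConnectedComponent := G.connectedComponentMk d.fst

theorem cd_rev (G : SimpleGraph V) (d : G.Dart) : cd G (rev G d) = cd G d := by
  show G.connectedComponentMk d.snd = G.connectedComponentMk d.fst
  exact SimpleGraph.ConnectedComponent.sound d.adj.symm.reachable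

theorem cd_rot (G : SimpleGraph V) {σ : Equiv.Perm G.Dart} (hσ : IsRot G σ) (d : G.Dart) :
    cd G (σ d) = cd G d := by
  rw [cd, cd, hσ.src]

theorem cd_snd (G : SimpleGraph V) (d : G.Dart) : G.connectedComponentMk d.snd = cd G d :=
  SimpleGraph.ConnectedComponent.sound d.adj.symm.reachable

/-- a vertex of a component with another vertex has a neighbour -/
theorem exists_adj {G : SimpleGraph V} {v w : V} (h : G.Reachable v w) (hne : v ≠ w) :
    ∃ u, G.Adj v u := by
  obtain ⟨p⟩ := h
  cases p with
  | nil => exact absurd rfl hne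
  | cons hadj _ => exact ⟨_, hadj⟩

section

variable [Fintype V] [DecidableEq V] (G : SimpleGraph V)

/-- the number of vertices of a component -/
noncomputable def nc (c : G.ConnectedComponent) : ℕ :=
  Nat.card {v : V // G.connectedComponentMk v = c}

/-- the number of edges of a component -/
noncomputable def ec (c : G.ConnectedComponent) : ℕ := Nat.card c.toSimpleGraph.edgeSet

/-- the darts of a component -/
def dartEquiv (c : G.ConnectedComponent) : c.toSimpleGraph.Dart ≃ {d : G.Dart // cd G d = c} where
  toFun d := ⟨⟨(d.fst.1, d.snd.1), d.adj⟩, d.fst.2⟩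
  invFun d := ⟨(⟨d.1.fst, d.2⟩, ⟨d.1.snd, (cd_snd G d.1).trans d.2⟩), d.1.adj⟩
  left_inv d := rfl
  right_inv d := rfl

theorem card_darts (c : G.ConnectedComponent) :
    Nat.card {d : G.Dart // cd G d = c} = 2 * ec G c := by
  classical
  rw [← Nat.card_congr (dartEquiv G c), ec]
  have hF : Fintype c := Fintype.ofFinite _
  have h := SimpleGraph.dart_card_eq_twice_card_edges (G := c.toSimpleGraph)
  rw [Nat.card_eq_fintype_card, h, Nat.card_eq_fintype_card, SimpleGraph.edgeFinset_card]

theorem card_all_darts : Nat.card G.Dart = 2 * ne G := by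
  classical
  have h := SimpleGraph.dart_card_eq_twice_card_edges (G := G)
  rw [Nat.card_eq_fintype_card, h, ne, Nat.card_eq_fintype_card, SimpleGraph.edgeFinset_card]

theorem sum_fibers {A I : Type} [Finite A] [Fintype I] (f : A → I) :
    Nat.card A = ∑ i : I, Nat.card {a : A // f a = i} := by
  rw [← Nat.card_congr (Equiv.sigmaFiberEquiv f), Nat.card_sigma]

theorem nc_le (c : G.ConnectedComponent) : nc G c ≤ ec G c + 1 := by
  have h := (SimpleGraph.ConnectedComponent.connected_toSimpleGraph c).card_vert_le_card_edgeSet_add_one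
  exact h

theorem nc_pos (c : G.ConnectedComponent) : 1 ≤ nc G c := by
  obtain ⟨v, hv⟩ := c.exists_rep
  have : Nonempty {v : V // G.connectedComponentMk v = c} := ⟨⟨v, hv⟩⟩
  exact Nat.card_pos

/-- one-vertex components -/
theorem ec_eq_zero (c : G.ConnectedComponent) (h : nc G c = 1) : ec G c = 0 := by
  have hs : Subsingleton {v : V // G.connectedComponentMk v = c} :=
    (Nat.card_eq_one_iff_unique.1 h).1
  have hD := card_darts G c
  have : IsEmpty {d : G.Dart // cd G d = c} := by
    constructor
    rintro ⟨d, hd⟩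
    have h1 : (⟨d.fst, hd⟩ : {v : V // G.connectedComponentMk v = c}) =
      ⟨d.snd, (cd_snd G d).trans hd⟩ := Subsingleton.elim _ _
    exact d.adj.ne (congrArg Subtype.val h1)
  rw [Nat.card_of_isEmpty] at hD
  omega

theorem iso_pos (c : G.ConnectedComponent) (h : nc G c = 1) :
    1 ≤ Nat.card {v : {v : V // ∀ w, ¬ G.Adj v w} // G.connectedComponentMk v.1 = c} := by
  have hs : Subsingleton {v : V // G.connectedComponentMk v = c} :=
    (Nat.card_eq_one_iff_unique.1 h).1
  obtain ⟨v, hv⟩ := c.exists_rep
  have hiso : ∀ w, ¬ G.Adj v w := by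
    intro w hw
    have h1 : (⟨v, hv⟩ : {v : V // G.connectedComponentMk v = c}) =
      ⟨w, (SimpleGraph.ConnectedComponent.sound hw.symm.reachable).trans hv⟩ :=
      Subsingleton.elim _ _
    exact hw.ne (congrArg Subtype.val h1)
  have : Nonempty {v : {v : V // ∀ w, ¬ G.Adj v w} // G.connectedComponentMk v.1 = c} :=
    ⟨⟨⟨v, hiso⟩, hv⟩⟩
  exact Nat.card_pos

/-- the orbits of the rotation in a component with at least two vertices -/
theorem orb_rot {σ : Equiv.Perm G.Dart} (hσ : IsRot G σ) (c : G.ConnectedComponent)
    (h2 : 2 ≤ nc G c) :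
    orb (σ.subtypePerm (p := fun d => cd G d = c) (fun d => by rw [cd_rot G hσ])) = nc G c := by
  rw [orb, nc]
  let F : Quotient (Equiv.Perm.SameCycle.setoid
      (σ.subtypePerm (p := fun d => cd G d = c) (fun d => by rw [cd_rot G hσ]))) →
      {v : V // G.connectedComponentMk v = c} :=
    Quotient.lift (fun d => ⟨d.1.fst, d.2⟩) (by
      intro d e hde
      have h1 : (σ.subtypePerm (p := fun d => cd G d = c)
        (fun d => by rw [cd_rot G hσ])).SameCycle d e := hde
      rw [Equiv.Perm.sameCycle_subtypePerm] at h1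
      obtain ⟨i, hi⟩ := h1
      apply Subtype.ext
      have := inv_zpow σ (fun d : G.Dart => d.fst) hσ.src i d.1
      simp only at this ⊢
      rw [← hi, this])
  apply Nat.card_congr
  apply Equiv.ofBijective F
  constructor
  · intro x y
    refine Quotient.inductionOn₂ x y ?_
    intro d e hde
    apply Quotient.sound
    show (σ.subtypePerm (p := fun d => cd G d = c)
        (fun d => by rw [cd_rot G hσ])).SameCycle d e
    rw [Equiv.Perm.sameCycle_subtypePerm]
    exact hσ.cyc d.1 e.1 (congrArg Subtype.val hde)
  · rintro ⟨v, hv⟩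
    have hnt : Nontrivial {v : V // G.connectedComponentMk v = c} := by
      rw [← Finite.one_lt_card_iff_nontrivial]
      exact h2
    obtain ⟨⟨w, hw⟩, hwv⟩ := exists_ne (⟨v, hv⟩ : {v : V // G.connectedComponentMk v = c})
    have hr : G.Reachable v w := SimpleGraph.ConnectedComponent.exact (hv.trans hw.symm)
    obtain ⟨u, hu⟩ := exists_adj hr (fun h => hwv (Subtype.ext h.symm))
    exact ⟨Quotient.mk _ ⟨⟨(v, u), hu⟩, hv⟩, rfl⟩

theorem orb_pos {D : Type} [Finite D] [Nonempty D] (π : Equiv.Perm D) : 1 ≤ orb π := by
  have : Nonempty (Quotient (Equiv.Perm.SameCycle.setoid π)) := ⟨Quotient.mk _ (Classical.arbitrary D)⟩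
  exact Nat.card_pos

/-- the reversal of the darts of a component -/
def rc (c : G.ConnectedComponent) : Equiv.Perm {d : G.Dart // cd G d = c} :=
  (rev G).subtypePerm (p := fun d => cd G d = c) (fun d => by rw [cd_rev])

theorem rc_pair (c : G.ConnectedComponent) : IsPair (rc G c) := by
  intro x
  refine ⟨?_, ?_⟩
  · apply Subtype.ext
    exact SimpleGraph.Dart.symm_symm x.1
  · intro h
    have := congrArg Subtype.val h
    exact SimpleGraph.Dart.symm_ne x.1 this

/-- the inequality of one component -/
theorem one_comp (hPAR : StmtPAR) {σ : Equiv.Perm G.Dart} (hσ : IsRot G σ)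
    (c : G.ConnectedComponent) :
    ec G c + 2 ≤ nc G c +
      orb ((σ * rev G).subtypePerm (p := fun d => cd G d = c)
        (fun d => by rw [Equiv.Perm.mul_apply, cd_rot G hσ, cd_rev])) +
      Nat.card {v : {v : V // ∀ w, ¬ G.Adj v w} // G.connectedComponentMk v.1 = c} +
      2 * ((ec G c + 1 - nc G c) / 2) := by
  classical
  have h1 := nc_le G c
  have h0 := nc_pos G c
  by_cases h2 : 2 ≤ nc G c
  · have ho := orb_rot G hσ c h2
    have hp := hPAR {d : G.Dart // cd G d = c}
      (σ.subtypePerm (p := fun d => cd G d = c) (fun d => by rw [cd_rot G hσ])) (rc G c)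
      (rc_pair G c)
    have hcard : Fintype.card {d : G.Dart // cd G d = c} = 2 * ec G c := by
      rw [← Nat.card_eq_fintype_card, card_darts]
    have hmul : (σ.subtypePerm (p := fun d => cd G d = c) (fun d => by rw [cd_rot G hσ])) *
        rc G c = (σ * rev G).subtypePerm (p := fun d => cd G d = c)
        (fun d => by rw [Equiv.Perm.mul_apply, cd_rot G hσ, cd_rev]) := by
      ext x
      · rfl
      · rfl
    rw [hmul, ho, hcard] at hp
    have hne : Nonempty {d : G.Dart // cd G d = c} := by
      have : 0 < Nat.card {d : G.Dart // cd G d = c} := by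
        rw [card_darts]
        omega
      exact (Nat.card_pos_iff.1 this).1
    have hF := orb_pos ((σ * rev G).subtypePerm (p := fun d => cd G d = c)
        (fun d => by rw [Equiv.Perm.mul_apply, cd_rot G hσ, cd_rev]))
    obtain ⟨t, ht⟩ := hp
    omega
  · have h3 : nc G c = 1 := by omega
    have h4 := ec_eq_zero G c h3
    have h5 := iso_pos G c h3
    omega

/-- the vertex set of a component as a finset -/
noncomputable def sc (c : G.ConnectedComponent) : Finset V := by
  classical
  exact univ.filter (fun v => G.connectedComponentMk v = c)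

theorem mem_sc (c : G.ConnectedComponent) (v : V) : v ∈ sc G c ↔ G.connectedComponentMk v = c := by
  classical
  simp [sc]

theorem card_sc (c : G.ConnectedComponent) : #(sc G c) = nc G c := by
  classical
  rw [nc, Nat.card_eq_fintype_card, Fintype.card_subtype, sc]

theorem sc_inj : Function.Injective (sc G) := by
  intro c d h
  obtain ⟨v, hv⟩ := c.exists_rep
  have h1 : v ∈ sc G c := (mem_sc G c v).2 hv
  rw [h, mem_sc] at h1
  exact hv.symm.trans h1

theorem isComp_sc (c : G.ConnectedComponent) : IsComp G (sc G c) := by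
  refine ⟨c, ?_⟩
  ext v
  rw [mem_coe, mem_sc]
  rfl

theorem ec_le (c : G.ConnectedComponent) : ec G c ≤ eIn G (sc G c) := by
  classical
  rw [ec, eIn]
  apply Nat.card_le_card_of_injective
    (fun e : c.toSimpleGraph.edgeSet => (⟨Sym2.map Subtype.val e.1, by
      obtain ⟨e, he⟩ := e
      induction e using Sym2.ind with
      | _ u v =>
        refine ⟨?_, ?_⟩
        · exact he
        · intro x hx
          rw [Sym2.map_mk, Sym2.mem_iff] at hx
          rw [mem_sc]
          rcases hx with rfl | rfl
          · exact u.2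
          · exact v.2⟩ :
        {e : Sym2 V // e ∈ G.edgeSet ∧ ∀ v ∈ e, v ∈ sc G c}))
  intro e e' h
  apply Subtype.ext
  exact Sym2.map.injective Subtype.val_injective (congrArg Subtype.val h)

theorem zq_ge (c : G.ConnectedComponent) (h : nc G c + 1 ≤ ec G c) :
    ec G c + 1 - nc G c ≤ zq G (sc G c) := by
  have h1 := ec_le G c
  have h2 := card_sc G c
  rw [zq, if_pos ⟨isComp_sc G c, by omega⟩]
  omega

theorem goalUG (hROT : StmtROT) (hPAR : StmtPAR) (hBLK : StmtBLK) : StmtUG := by
  classical
  intro V _ _ G g hZ
  obtain ⟨σ, hσ⟩ := hROT V G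
  refine ⟨σ, hσ, ?_⟩
  have hI : Fintype G.ConnectedComponent := Fintype.ofFinite _
  have hD : Fintype G.Dart := Fintype.ofFinite _
  have hb := hBLK G.Dart G.ConnectedComponent (σ * rev G) (cd G)
    (fun d => by rw [Equiv.Perm.mul_apply, cd_rot G hσ, cd_rev])
  have hV : Nat.card V = ∑ c : G.ConnectedComponent, nc G c :=
    sum_fibers (fun v => G.connectedComponentMk v)
  have hiso : Nat.card {v : V // ∀ w, ¬ G.Adj v w} = ∑ c : G.ConnectedComponent,
      Nat.card {v : {v : V // ∀ w, ¬ G.Adj v w} // G.connectedComponentMk v.1 = c} :=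
    sum_fibers (fun v : {v : V // ∀ w, ¬ G.Adj v w} => G.connectedComponentMk v.1)
  have hne : ne G = ∑ c : G.ConnectedComponent, ec G c := by
    have h1 : Nat.card G.Dart = ∑ c : G.ConnectedComponent, Nat.card {d : G.Dart // cd G d = c} :=
      sum_fibers (cd G)
    rw [card_all_darts] at h1
    simp only [card_darts] at h1
    rw [← Finset.mul_sum] at h1
    omega
  have hsum := Finset.sum_le_sum (s := (univ : Finset G.ConnectedComponent))
    (fun c _ => one_comp G hPAR hσ c)
  rw [Finset.sum_add_distrib, Finset.sum_add_distrib, Finset.sum_add_distrib,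
    Finset.sum_add_distrib, ← hne, ← hV, ← hiso, Finset.sum_const, Finset.card_univ,
    ← Nat.card_eq_fintype_card, ← Finset.mul_sum, smul_eq_mul] at hsum
  have hz : 2 * ∑ c : G.ConnectedComponent, (ec G c + 1 - nc G c) / 2 ≤ ZZ G := by
    rw [Finset.mul_sum, ZZ]
    calc ∑ c : G.ConnectedComponent, 2 * ((ec G c + 1 - nc G c) / 2)
        ≤ ∑ c : G.ConnectedComponent, zq G (sc G c) := by
          apply Finset.sum_le_sum
          intro c _
          by_cases h : nc G c + 1 ≤ ec G c
          · have := zq_ge G c h
            omega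
          · have : (ec G c + 1 - nc G c) / 2 = 0 := by omega
            rw [this]
            omega
      _ = ∑ Q ∈ (univ : Finset G.ConnectedComponent).image (sc G), zq G Q := by
          rw [Finset.sum_image (fun c _ d _ h => sc_inj G h)]
      _ ≤ ∑ Q : Finset V, zq G Q := by
          apply Finset.sum_le_sum_of_subset
          exact Finset.subset_univ _
  rw [faces, hb]
  omega

end

end Pool.Agent.Helper83.AF
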