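import Pool.Agent.Helper26.AF.Goals2

set_option autoImplicit false

namespace Pool.Agent.Helper83.AF

open Finset Pool.Agent.Helper26.AF

/-- the number of bad darts -/
noncomputable def bd {r : ℕ} (L : ℕ) (κ : Equiv.Perm (KX r)) : ℕ := Nat.card {x : KX r // BadD L κ x}

open Classical in
theorem sum_bd (L r : ℕ) : Nat.card {q : Equiv.Perm (KX r) × KX r // IsPair q.1 ∧ BadD L q.1 q.2} =
    ∑ κ ∈ (univ : Finset (Equiv.Perm (KX r))).filter (fun κ => IsPair κ), bd L κ := by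
  rw [Nat.card_eq_fintype_card, Fintype.card_subtype, Finset.card_filter, Fintype.sum_prod_type,
    Finset.sum_filter]
  apply Finset.sum_congr rfl
  intro κ _
  by_cases h : IsPair κ
  · rw [if_pos h, bd, Nat.card_eq_fintype_card, Fintype.card_subtype, Finset.card_filter]
    apply Finset.sum_congr rfl
    intro x _
    simp [h]
  · rw [if_neg h]
    apply Finset.sum_eq_zero
    intro x _
    simp [h]

theorem goalKER (hPMC : StmtPMC) (hKDI : StmtKDI) (hKBD : StmtKBD) (hKFA : StmtKFA) : StmtKER := by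
  classical
  intro η hη
  obtain ⟨r1, hr1⟩ := hKDI
  obtain ⟨L0, hL0⟩ := exists_nat_ge (12 / η)
  let L := L0 + 1
  have hL1 : 1 ≤ L := Nat.le_add_left 1 L0
  have hL12 : 12 / η ≤ (L : ℝ) := by
    have : (L : ℝ) = (L0 : ℝ) + 1 := by simp [L]
    linarith
  have hLpos : (0 : ℝ) < L := by exact_mod_cast hL1
  obtain ⟨r2, hr2⟩ := exists_nat_ge (8 * 3 ^ (L + 1) / η)
  refine ⟨r1 + L + r2 + 1, ?_⟩
  intro r hr
  have hrL : L ≤ r := by omega
  have hr0 : (0 : ℝ) < r := by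
    have : 0 < r := by omega
    exact_mod_cast this
  have hr8 : 8 * 3 ^ (L + 1) / η ≤ (r : ℝ) := by
    have h1 : (r2 : ℝ) ≤ r := by
      have : r2 ≤ r := by omega
      exact_mod_cast this
    linarith
  have hK := hr1 r (by omega)
  have hB := hKBD L r hL1 hrL
  have hP := hPMC (KX r) (3 * r) (by simp; ring)
  have h6 : 2 * (3 * r) - 1 = 6 * r - 1 := by omega
  rw [h6] at hP
  obtain ⟨N, hN⟩ : ∃ N : ℕ, N = Nat.doubleFactorial (6 * r - 1) := ⟨_, rfl⟩
  rw [← hN] at hK hB hP ⊢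
  rw [sum_bd] at hB
  rw [Nat.card_eq_fintype_card, Fintype.card_subtype] at hK hP ⊢
  let t : ℝ := η * r / 2
  have ht : 0 < t := by positivity
  let P := (univ : Finset (Equiv.Perm (KX r))).filter (fun κ => IsPair κ)
  let C := (univ : Finset (Equiv.Perm (KX r))).filter (fun κ => IsPair κ ∧ ¬ KConn κ)
  let Gd := (univ : Finset (Equiv.Perm (KX r))).filter (fun κ => IsPair κ ∧ KConn κ ∧
    ∀ σ, RotX σ → (orb (σ * κ) : ℝ) ≤ η * r)
  let B := P.filter (fun κ => t < (bd L κ : ℝ))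
  have hsub : P ⊆ Gd ∪ B ∪ C := by
    intro κ hκ
    have hκP : IsPair κ := (mem_filter.1 hκ).2
    by_cases hc : KConn κ
    · by_cases hb : t < (bd L κ : ℝ)
      · exact mem_union_left _ (mem_union_right _ (mem_filter.2 ⟨hκ, hb⟩))
      · apply mem_union_left
        apply mem_union_left
        refine mem_filter.2 ⟨mem_univ _, hκP, hc, ?_⟩
        intro σ hσ
        have h1 := hKFA L r κ σ hL1 hκP hσ
        have h2 : (L : ℝ) * (orb (σ * κ) : ℝ) ≤ (L : ℝ) * (bd L κ : ℝ) + 6 * r := by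
          exact_mod_cast h1
        have h3 : (bd L κ : ℝ) ≤ η * r / 2 := not_lt.1 hb
        have h4 : 6 * (r : ℝ) ≤ (L : ℝ) * (η * r / 2) := by
          have h5 : 12 ≤ (L : ℝ) * η := by
            rw [div_le_iff₀ hη] at hL12
            exact hL12
          nlinarith
        have h5 : (L : ℝ) * (orb (σ * κ) : ℝ) ≤ (L : ℝ) * (η * r) := by
          have := mul_le_mul_of_nonneg_left h3 hLpos.le
          linarith
        exact le_of_mul_le_mul_left h5 hLpos
    · exact mem_union_right _ (mem_filter.2 ⟨mem_univ _, hκP, hc⟩)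
  have hcard : #P ≤ #Gd + #B + #C := by
    calc #P ≤ #(Gd ∪ B ∪ C) := card_le_card hsub
      _ ≤ #(Gd ∪ B) + #C := card_union_le _ _
      _ ≤ #Gd + #B + #C := Nat.add_le_add_right (card_union_le _ _) _
  have hBt : (#B : ℝ) * t ≤ 3 ^ (L + 1) * (N : ℝ) := by
    have h1 : (#B : ℝ) * t ≤ ∑ κ ∈ B, (bd L κ : ℝ) := by
      have := Finset.card_nsmul_le_sum B (fun κ => (bd L κ : ℝ)) t (fun κ hκ =>
        (mem_filter.1 hκ).2.le)
      simpa using this
    have h2 : ∑ κ ∈ B, (bd L κ : ℝ) ≤ ∑ κ ∈ P, (bd L κ : ℝ) := by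
      apply Finset.sum_le_sum_of_subset_of_nonneg (filter_subset _ _)
      intro _ _ _
      positivity
    have h3 : ∑ κ ∈ P, (bd L κ : ℝ) ≤ 3 ^ (L + 1) * (N : ℝ) := by
      exact_mod_cast hB
    linarith
  have hB4 : 4 * (#B : ℝ) ≤ N := by
    have h1 : 8 * 3 ^ (L + 1) ≤ η * (r : ℝ) := by
      rw [div_le_iff₀ hη] at hr8
      linarith
    have h2 : 4 * (3 ^ (L + 1) : ℝ) ≤ t := by
      show 4 * (3 ^ (L + 1) : ℝ) ≤ η * r / 2
      linarith
    have hN0 : (0 : ℝ) ≤ N := Nat.cast_nonneg _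
    have h3 : 4 * (#B : ℝ) * t ≤ N * t := by
      calc 4 * (#B : ℝ) * t = 4 * ((#B : ℝ) * t) := by ring
        _ ≤ 4 * (3 ^ (L + 1) * (N : ℝ)) := by linarith
        _ = (4 * (3 ^ (L + 1) : ℝ)) * N := by ring
        _ ≤ t * N := mul_le_mul_of_nonneg_right h2 hN0
        _ = N * t := by ring
    exact le_of_mul_le_mul_right h3 ht
  have hB4' : 4 * #B ≤ N := by exact_mod_cast hB4
  have hC4 : 4 * #C ≤ N := hK
  have hPN : #P = N := hP
  show N ≤ 2 * #Gd
  omega

end Pool.Agent.Helper83.AF
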